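import Mathlib

/-!
# Magnitude is not continuous on the compact subsets of the plane `ℓ₁²`

The plane `ℓ₁²` embeds isometrically in `L₁([0,1])`; it is tractable: the kernel
`exp (- ‖x - y‖₁)` is a product of two kernels `exp (- |x - y|)`, and on an interval of length `L`
one has `(∑ w)² ≤ (1 + L / 2) ∑ ∑ w w exp (- |x - y|)` (induction on the largest point).

Let `K` be the antidiagonal segment `{(t, -t) : 0 ≤ t ≤ 1/2}` together with a point `p = (x₀, y₀)`,
`x₀ + y₀ = log 2`, which has the distance `log 2` to all points of the segment.  Then `|K| ≤ 8 / 5`.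
Let `K_N` be the grid of mesh `h = 1 / (2 (N + 1))` on the segment, together with its translate by
`(h, h)` and with `p`.  Since `exp (- ‖(t, -t) - (s + h, - s + h)‖) = exp (- 2 max (|t - s|, h))`, the
difference of the two copies of the counting measure of the grid has bounded energy (this is the
normal derivative, a bounded functional on the reproducing kernel Hilbert space of `ℓ₁²`), and
it has a negative inner product with `- δ_p`.  Explicit weights give
`(8 / 5)² ≤ (79 / 50) liminf |K_N|`, and `(79 / 50) (8 / 5) < (8 / 5)²`; while `K_N → K` in the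
Hausdorff metric.
-/

set_option autoImplicit false

namespace Pool.Agent.Results.MP_17ecd9_gt.MagnitudeJump

open Finset Matrix

lemma tanh_aux (d : ℝ) (hd : 0 ≤ d) : 1 - Real.exp (-d) ≤ d / 2 * (1 + Real.exp (-d)) := by
  have hmono : MonotoneOn (fun x : ℝ => x / 2 * (1 + Real.exp (-x)) - (1 - Real.exp (-x)))
      (Set.Ici 0) := by
    have hder : ∀ x : ℝ, HasDerivAt
        (fun x : ℝ => x / 2 * (1 + Real.exp (-x)) - (1 - Real.exp (-x)))
        ((1 - (1 + x) * Real.exp (-x)) / 2) x := by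
      intro x
      have h1 : HasDerivAt (fun x : ℝ => Real.exp (-x)) (-Real.exp (-x)) x := by
        have := (hasDerivAt_neg x).exp
        simpa using this
      have h2 : HasDerivAt (fun x : ℝ => x / 2) (1 / 2) x := (hasDerivAt_id x).div_const 2
      have h3 := (h2.mul (h1.const_add 1)).sub (h1.const_sub 1)
      refine h3.congr_deriv ?_
      ring
    refine monotoneOn_of_deriv_nonneg (convex_Ici 0)
      (fun x _ => (hder x).continuousAt.continuousWithinAt)
      (fun x _ => (hder x).differentiableAt.differentiableWithinAt) ?_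
    intro x hx
    rw [interior_Ici] at hx
    rw [(hder x).deriv]
    have h4 : (1 + x) * Real.exp (-x) ≤ 1 := by
      rw [Real.exp_neg]
      rw [mul_inv_le_iff₀ (Real.exp_pos x), one_mul]
      linarith [Real.add_one_le_exp x]
    linarith
  have := hmono (Set.mem_Ici.2 le_rfl) (Set.mem_Ici.2 hd) hd
  simp at this
  linarith

/-- the quadratic form of the exponential kernel on the line -/
noncomputable def Q1 (X : Finset ℝ) (w : ℝ → ℝ) : ℝ :=
  ∑ x ∈ X, ∑ y ∈ X, w x * w y * Real.exp (-|x - y|)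

lemma Q1_insert (X : Finset ℝ) (m : ℝ) (hm : m ∉ X) (w : ℝ → ℝ) :
    Q1 (insert m X) w = Q1 X w + 2 * w m * ∑ x ∈ X, w x * Real.exp (-|m - x|) + w m ^ 2 := by
  unfold Q1
  rw [sum_insert hm, sum_insert hm]
  have h1 : ∑ x ∈ X, ∑ y ∈ insert m X, w x * w y * Real.exp (-|x - y|) =
      ∑ x ∈ X, (w x * w m * Real.exp (-|x - m|) + ∑ y ∈ X, w x * w y * Real.exp (-|x - y|)) :=
    sum_congr rfl fun x _ => by rw [sum_insert hm]
  rw [h1, sum_add_distrib]
  have h2 : ∑ x ∈ X, w x * w m * Real.exp (-|x - m|) =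
      w m * ∑ x ∈ X, w x * Real.exp (-|m - x|) := by
    rw [mul_sum]
    exact sum_congr rfl fun x _ => by rw [abs_sub_comm]; ring
  have h3 : ∑ x ∈ X, w m * w x * Real.exp (-|m - x|) =
      w m * ∑ x ∈ X, w x * Real.exp (-|m - x|) := by
    rw [mul_sum]
    exact sum_congr rfl fun x _ => by ring
  rw [h2, h3]
  simp
  ring

lemma Q1_shift (X : Finset ℝ) (e c : ℝ) (he : e ∈ X) (w : ℝ → ℝ) :
    Q1 X (fun x => w x + if x = e then c else 0) =
      Q1 X w + 2 * c * ∑ x ∈ X, w x * Real.exp (-|e - x|) + c ^ 2 := by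
  unfold Q1
  have h1 : ∀ x ∈ X, ∀ y ∈ X, (w x + if x = e then c else 0) * (w y + if y = e then c else 0) *
      Real.exp (-|x - y|) = w x * w y * Real.exp (-|x - y|) +
      (if x = e then c * (w y * Real.exp (-|e - y|)) else 0) +
      (if y = e then c * (w x * Real.exp (-|e - x|)) else 0) +
      (if x = e then (if y = e then c ^ 2 else 0) else 0) := by
    intro x _ y _
    by_cases hx : x = e <;> by_cases hy : y = e
    · subst hx; subst hy; simp; ring
    · subst hx; simp [hy]; ring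
    · subst hy; simp [hx]; rw [abs_sub_comm]; ring
    · simp [hx, hy]
  rw [sum_congr rfl fun x hx => sum_congr rfl fun y hy => h1 x hx y hy]
  simp only [sum_add_distrib]
  have h2 : ∑ x ∈ X, ∑ y ∈ X, (if x = e then c * (w y * Real.exp (-|e - y|)) else 0) =
      c * ∑ y ∈ X, w y * Real.exp (-|e - y|) := by
    rw [sum_comm, mul_sum]
    refine sum_congr rfl fun y _ => ?_
    rw [sum_ite_eq' X e]
    simp [he]
  have h3 : ∑ x ∈ X, ∑ y ∈ X, (if y = e then c * (w x * Real.exp (-|e - x|)) else 0) =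
      c * ∑ y ∈ X, w y * Real.exp (-|e - y|) := by
    rw [mul_sum]
    refine sum_congr rfl fun x _ => ?_
    rw [sum_ite_eq' X e]
    simp [he]
  have h4 : ∑ x ∈ X, ∑ y ∈ X, (if x = e then (if y = e then c ^ 2 else 0) else 0) = c ^ 2 := by
    have : ∀ x ∈ X, ∑ y ∈ X, (if x = e then (if y = e then c ^ 2 else 0) else 0) =
        if x = e then c ^ 2 else 0 := by
      intro x _
      by_cases hx : x = e
      · simp [hx, he]
      · simp [hx]
    rw [sum_congr rfl this, sum_ite_eq' X e]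
    simp [he]
  rw [h2, h3, h4]
  ring

lemma cs_aux (A B M t Q R : ℝ) (hM : 0 < M) (ht : 0 < t) (hA : A ^ 2 ≤ M * Q) (hB : B ^ 2 ≤ t * R) :
    (A + B) ^ 2 ≤ (M + t) * (Q + R) := by
  have h1 : 0 ≤ (t * A - M * B) ^ 2 := sq_nonneg _
  have h2 : 2 * t * M * (A * B) ≤ t ^ 2 * (M * Q) + M ^ 2 * (t * R) := by
    have := mul_le_mul_of_nonneg_left hA (sq_nonneg t)
    have := mul_le_mul_of_nonneg_left hB (sq_nonneg M)
    nlinarith
  have h3 : (t * M) * (2 * (A * B)) ≤ (t * M) * (t * Q + M * R) := by nlinarith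
  have h4 := le_of_mul_le_mul_left h3 (by positivity)
  nlinarith

/-- the fundamental estimate on the line -/
lemma line (X : Finset ℝ) : ∀ (a e : ℝ), a ≤ e → (∀ x ∈ X, a ≤ x) → (∀ x ∈ X, x ≤ e) →
    ∀ w : ℝ → ℝ, (∑ x ∈ X, w x) ^ 2 ≤ (1 + (e - a) / 2) * Q1 X w ∧ 0 ≤ Q1 X w ∧
      (Q1 X w = 0 → ∀ x ∈ X, w x = 0) := by
  induction X using Finset.induction_on_max with
  | empty =>
    intro a e hae _ _ w
    simp [Q1]
  | insert m X hlt ih =>
    intro a e hae ha he w
    have hm : m ∉ X := fun h => lt_irrefl _ (hlt m h)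
    rcases X.eq_empty_or_nonempty with h0 | h0
    · subst h0
      have hQ : Q1 (insert m ∅) w = w m ^ 2 := by
        rw [Q1_insert ∅ m hm]; simp [Q1]
      rw [hQ]
      refine ⟨?_, sq_nonneg _, ?_⟩
      · simp
        nlinarith [sq_nonneg (w m)]
      · intro h x hx
        simp at hx
        subst hx
        exact pow_eq_zero_iff (two_ne_zero) |>.1 h
    · set e' := X.max' h0 with he'
      have he'X : e' ∈ X := X.max'_mem h0
      have he'm : e' < m := hlt e' he'X
      have hae' : a ≤ e' := ha e' (mem_insert_of_mem he'X)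
      have hme : m ≤ e := he m (mem_insert_self _ _)
      set q := Real.exp (-(m - e')) with hq
      have hq0 : 0 < q := Real.exp_pos _
      have hq1 : q < 1 := by
        have := Real.exp_lt_exp.2 (show -(m - e') < 0 by linarith)
        rwa [Real.exp_zero] at this
      set w' : ℝ → ℝ := fun x => w x + if x = e' then q * w m else 0 with hw'
      have hQ : Q1 (insert m X) w = Q1 X w' + w m ^ 2 * (1 - q ^ 2) := by
        rw [Q1_insert X m hm, hw', Q1_shift X e' (q * w m) he'X]
        have : ∑ x ∈ X, w x * Real.exp (-|m - x|) = q * ∑ x ∈ X, w x * Real.exp (-|e' - x|) := by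
          rw [mul_sum]
          refine sum_congr rfl fun x hx => ?_
          have h1 : x ≤ e' := X.le_max' x hx
          rw [abs_of_nonneg (by linarith), abs_of_nonneg (by linarith), hq]
          have : Real.exp (-(m - x)) = Real.exp (-(m - e')) * Real.exp (-(e' - x)) := by
            rw [← Real.exp_add]; congr 1; ring
          rw [this]; ring
        rw [this]; ring
      have hS : ∑ x ∈ insert m X, w x = (∑ x ∈ X, w' x) + (1 - q) * w m := by
        rw [sum_insert hm, hw']
        simp only [sum_add_distrib]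
        rw [sum_ite_eq' X e']
        simp [he'X]
        ring
      obtain ⟨i1, i2, i3⟩ := ih a e' hae' (fun x hx => ha x (mem_insert_of_mem hx))
        (fun x hx => X.le_max' x hx) w'
      have hR : 0 ≤ w m ^ 2 * (1 - q ^ 2) := mul_nonneg (sq_nonneg _) (by nlinarith)
      refine ⟨?_, ?_, ?_⟩
      · rw [hS, hQ]
        have hB : ((1 - q) * w m) ^ 2 ≤ ((m - e') / 2) * (w m ^ 2 * (1 - q ^ 2)) := by
          have h1 := tanh_aux (m - e') (by linarith)
          rw [← hq] at h1
          have h2 : (1 - q) ^ 2 ≤ (m - e') / 2 * (1 - q ^ 2) := by nlinarith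
          have h3 := mul_le_mul_of_nonneg_left h2 (sq_nonneg (w m))
          nlinarith
        have h4 := cs_aux _ _ (1 + (e' - a) / 2) ((m - e') / 2) _ _ (by linarith) (by linarith) i1 hB
        have h5 : (1 + (e' - a) / 2 + (m - e') / 2) ≤ 1 + (e - a) / 2 := by linarith
        exact h4.trans (mul_le_mul_of_nonneg_right h5 (by linarith))
      · rw [hQ]; linarith
      · intro h x hx
        rw [hQ] at h
        have h1 : Q1 X w' = 0 := by linarith
        have h2 : w m ^ 2 * (1 - q ^ 2) = 0 := by linarith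
        have h3 : w m = 0 := by
          rcases mul_eq_zero.1 h2 with h | h
          · exact pow_eq_zero_iff (two_ne_zero) |>.1 h
          · nlinarith
        rw [mem_insert] at hx
        rcases hx with hx | hx
        · rw [hx]; exact h3
        · have := i3 h1 x hx
          simp only [hw', h3, mul_zero, ite_self, add_zero] at this
          exact this


section general

variable {M : Type*} [MetricSpace M]

/-- the similarity matrix `Z_A` of a finite subset `A` of a metric space -/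
noncomputable def simMatrix (A : Finset M) : Matrix A A ℝ :=
  fun x y => Real.exp (-dist (x : M) (y : M))

open Classical in
/-- the magnitude of a finite subset: the sum of the entries of the inverse of `Z_A` -/
noncomputable def finMag (A : Finset M) : ℝ := ∑ x : A, ∑ y : A, (simMatrix A)⁻¹ x y

/-- the quadratic form of the kernel `exp (- d (x, y))` -/
noncomputable def Q (A : Finset M) (w : M → ℝ) : ℝ :=
  ∑ x ∈ A, ∑ y ∈ A, w x * w y * Real.exp (-dist x y)

lemma Q_eq (A : Finset M) (w : M → ℝ) :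
    Q A w = (fun x : A => w x) ⬝ᵥ (simMatrix A *ᵥ (fun x : A => w x)) := by
  unfold Q
  rw [← Finset.sum_attach A]
  simp only [dotProduct, mulVec, Finset.mul_sum]
  rw [Finset.univ_eq_attach]
  refine sum_congr rfl fun x _ => ?_
  rw [← Finset.sum_attach A]
  refine sum_congr rfl fun y _ => ?_
  rw [simMatrix]
  ring

open Classical in
/-- the weighting of a finite set -/
noncomputable def wt (A : Finset M) : A → ℝ := (simMatrix A)⁻¹ *ᵥ 1

lemma wt_sum (A : Finset M) : ∑ x, wt A x = finMag A := by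
  simp [wt, finMag, mulVec, dotProduct]

lemma wt_eq (A : Finset M) (h : (simMatrix A).PosDef) : simMatrix A *ᵥ wt A = 1 := by
  classical
  unfold wt
  rw [mulVec_mulVec, mul_nonsing_inv _ ((isUnit_iff_isUnit_det _).1 h.isUnit), one_mulVec]

lemma sim_symm (A : Finset M) : (simMatrix A)ᵀ = simMatrix A := by
  ext x y
  simp [simMatrix, dist_comm]

lemma key_quad (A : Finset M) (h : (simMatrix A).PosDef) (v : A → ℝ) (t : ℝ) :
    0 ≤ v ⬝ᵥ (simMatrix A *ᵥ v) - 2 * t * (∑ x, v x) + t ^ 2 * finMag A := by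
  have h1 := h.posSemidef.dotProduct_mulVec_nonneg (v - t • wt A)
  have h2 : simMatrix A *ᵥ (v - t • wt A) = simMatrix A *ᵥ v - t • 1 := by
    rw [mulVec_sub, mulVec_smul, wt_eq A h]
  have h3 : wt A ⬝ᵥ (simMatrix A *ᵥ v) = ∑ x, v x := by
    rw [dotProduct_mulVec, ← mulVec_transpose, sim_symm, wt_eq A h]
    simp [dotProduct]
  rw [h2] at h1
  simp only [star_trivial, sub_dotProduct, dotProduct_sub, smul_dotProduct, dotProduct_smul,
    smul_eq_mul] at h1
  rw [h3] at h1
  have h4 : v ⬝ᵥ (1 : A → ℝ) = ∑ x, v x := by simp [dotProduct]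
  have h5 : wt A ⬝ᵥ (1 : A → ℝ) = finMag A := by rw [← wt_sum]; simp [dotProduct]
  rw [h4, h5] at h1
  nlinarith

lemma finMag_pos (A : Finset M) (hA : A.Nonempty) (h : (simMatrix A).PosDef) : 0 < finMag A := by
  have hne : wt A ≠ 0 := by
    intro h0
    have h1 := wt_eq A h
    rw [h0, mulVec_zero] at h1
    obtain ⟨a, ha⟩ := hA
    have := congrFun h1 ⟨a, ha⟩
    simp at this
  have h1 := h.dotProduct_mulVec_pos hne
  rw [wt_eq A h] at h1
  have h5 : star (wt A) ⬝ᵥ (1 : A → ℝ) = finMag A := by rw [← wt_sum]; simp [dotProduct]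
  rwa [h5] at h1

lemma lower (A : Finset M) (hA : A.Nonempty) (h : (simMatrix A).PosDef) (w : M → ℝ) :
    (∑ x ∈ A, w x) ^ 2 ≤ finMag A * Q A w := by
  have hp := finMag_pos A hA h
  have h1 := key_quad A h (fun x => w x) ((∑ x ∈ A, w x) / finMag A)
  rw [← Q_eq] at h1
  have h2 : ∑ x : A, w x = ∑ x ∈ A, w x := by
    rw [← Finset.sum_attach A, Finset.univ_eq_attach]
  rw [h2] at h1
  set s := ∑ x ∈ A, w x
  have h3 : finMag A * (Q A w - 2 * (s / finMag A) * s + (s / finMag A) ^ 2 * finMag A) =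
      finMag A * Q A w - s ^ 2 := by
    field_simp
    ring
  have h4 := mul_nonneg hp.le h1
  rw [h3] at h4
  linarith

lemma upper (A : Finset M) (hA : A.Nonempty) (h : (simMatrix A).PosDef) (C : ℝ)
    (hC : ∀ w : M → ℝ, (∑ x ∈ A, w x) ^ 2 ≤ C * Q A w) : finMag A ≤ C := by
  classical
  have hp := finMag_pos A hA h
  set w : M → ℝ := fun x => if hx : x ∈ A then wt A ⟨x, hx⟩ else 0 with hw
  have hw' : (fun x : A => w x) = wt A := by
    ext x
    simp [hw]
  have h1 := hC w
  have h2 : ∑ x ∈ A, w x = finMag A := by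
    rw [← wt_sum, ← Finset.sum_attach A, Finset.univ_eq_attach]
    exact sum_congr rfl fun x _ => congrFun hw' x
  have h3 : Q A w = finMag A := by
    rw [Q_eq, hw', wt_eq A h, ← wt_sum]
    simp [dotProduct]
  rw [h2, h3] at h1
  nlinarith

lemma Q_nonneg (A : Finset M) (h : (simMatrix A).PosDef) (w : M → ℝ) : 0 ≤ Q A w := by
  rw [Q_eq]
  exact h.posSemidef.dotProduct_mulVec_nonneg _

lemma lower_index {ι : Type*} [Fintype ι] (A : Finset M) (hA : A.Nonempty)
    (h : (simMatrix A).PosDef) (x : ι → M) (hx : ∀ i, x i ∈ A) (v : ι → ℝ) :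
    (∑ i, v i) ^ 2 ≤ finMag A * ∑ i, ∑ j, v i * v j * Real.exp (-dist (x i) (x j)) := by
  classical
  set w : M → ℝ := fun m => ∑ i, if x i = m then v i else 0 with hw
  have h1 := lower A hA h w
  have h2 : ∀ g : M → ℝ, ∑ m ∈ A, w m * g m = ∑ i, v i * g (x i) := by
    intro g
    simp only [hw, Finset.sum_mul]
    rw [sum_comm]
    refine sum_congr rfl fun i _ => ?_
    rw [Finset.sum_eq_single (x i)]
    · simp
    · intro b _ hb
      simp [Ne.symm hb]
    · intro hn
      exact absurd (hx i) hn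
  have h3 : ∑ m ∈ A, w m = ∑ i, v i := by
    have := h2 (fun _ => 1)
    simpa using this
  have h4 : Q A w = ∑ i, ∑ j, v i * v j * Real.exp (-dist (x i) (x j)) := by
    unfold Q
    have e1 : ∀ m ∈ A, ∑ y ∈ A, w m * w y * Real.exp (-dist m y) =
        w m * ∑ j, v j * Real.exp (-dist m (x j)) := by
      intro m _
      rw [← h2 (fun y => Real.exp (-dist m y)), mul_sum]
      exact sum_congr rfl fun y _ => by ring
    rw [sum_congr rfl e1, h2 (fun m => ∑ j, v j * Real.exp (-dist m (x j)))]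
    refine sum_congr rfl fun i _ => ?_
    rw [mul_sum]
    exact sum_congr rfl fun j _ => by ring
  rw [h3, h4] at h1
  exact h1

end general


section plane

open scoped Kronecker

/-- the exponential kernel on a finite subset of the line -/
noncomputable def KM (X : Finset ℝ) : Matrix X X ℝ := fun x y => Real.exp (-|(x : ℝ) - y|)

lemma KM_herm (X : Finset ℝ) : (KM X).IsHermitian := by
  ext x y
  simp [KM, abs_sub_comm]

lemma KM_quad (X : Finset ℝ) (v : X → ℝ) : ∃ w : ℝ → ℝ, (∀ x : X, w x = v x) ∧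
    v ⬝ᵥ (KM X *ᵥ v) = Q1 X w ∧ ∑ x, v x = ∑ x ∈ X, w x := by
  classical
  refine ⟨fun x => if hx : x ∈ X then v ⟨x, hx⟩ else 0, fun x => by simp, ?_, ?_⟩
  · unfold Q1
    rw [← Finset.sum_attach X]
    simp only [dotProduct, mulVec, Finset.mul_sum]
    rw [Finset.univ_eq_attach]
    refine sum_congr rfl fun x _ => ?_
    rw [← Finset.sum_attach X]
    refine sum_congr rfl fun y _ => ?_
    simp [KM]
    ring
  · rw [← Finset.sum_attach X, Finset.univ_eq_attach]
    exact sum_congr rfl fun x _ => by simp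

lemma exists_bounds (X : Finset ℝ) : ∃ a e : ℝ, a ≤ e ∧ (∀ x ∈ X, a ≤ x) ∧ (∀ x ∈ X, x ≤ e) := by
  rcases X.eq_empty_or_nonempty with h | h
  · subst h; exact ⟨0, 0, le_rfl, by simp, by simp⟩
  · exact ⟨X.min' h, X.max' h, X.min'_le _ (X.max'_mem h), fun x hx => X.min'_le x hx,
      fun x hx => X.le_max' x hx⟩

lemma KM_posDef (X : Finset ℝ) : (KM X).PosDef := by
  rw [posDef_iff_dotProduct_mulVec]
  refine ⟨KM_herm X, fun v hv => ?_⟩
  obtain ⟨w, hw, hq, _⟩ := KM_quad X v
  obtain ⟨a, e, hae, ha, he⟩ := exists_bounds X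
  obtain ⟨_, h1, h2⟩ := line X a e hae ha he w
  rw [star_trivial, hq]
  refine lt_of_le_of_ne h1 fun h0 => hv ?_
  ext x
  rw [← hw x]
  exact h2 h0.symm x x.2

/-- all entries equal to `c` -/
def Jm (n : Type*) (c : ℝ) : Matrix n n ℝ := fun _ _ => c

lemma Jm_psd (n : Type*) [Fintype n] (c : ℝ) (hc : 0 ≤ c) : (Jm n c).PosSemidef := by
  rw [posSemidef_iff_dotProduct_mulVec]
  refine ⟨by ext x y; simp [Jm], fun v => ?_⟩
  have : v ⬝ᵥ (Jm n c *ᵥ v) = c * (∑ x, v x) ^ 2 := by
    simp only [dotProduct, mulVec, Jm, ← Finset.mul_sum, sq, ← Finset.sum_mul]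
    ring
  rw [star_trivial, this]
  positivity

lemma KM_sub (X : Finset ℝ) (a e : ℝ) (hae : a ≤ e) (ha : ∀ x ∈ X, a ≤ x) (he : ∀ x ∈ X, x ≤ e) :
    (KM X - Jm X (1 + (e - a) / 2)⁻¹).PosSemidef := by
  have hC : 0 < 1 + (e - a) / 2 := by linarith
  rw [posSemidef_iff_dotProduct_mulVec]
  refine ⟨(KM_herm X).sub (by ext x y; simp [Jm]), fun v => ?_⟩
  obtain ⟨w, hw, hq, hs⟩ := KM_quad X v
  obtain ⟨h1, _, _⟩ := line X a e hae ha he w
  have h2 : v ⬝ᵥ (Jm X (1 + (e - a) / 2)⁻¹ *ᵥ v) = (1 + (e - a) / 2)⁻¹ * (∑ x, v x) ^ 2 := by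
    simp only [dotProduct, mulVec, Jm, ← Finset.mul_sum, sq, ← Finset.sum_mul]
    ring
  rw [star_trivial, sub_mulVec, dotProduct_sub, hq, h2, hs]
  have := mul_le_mul_of_nonneg_left h1 (inv_pos.2 hC).le
  rw [← mul_assoc, inv_mul_cancel₀ hC.ne', one_mul] at this
  linarith

variable {M : Type*} [MetricSpace M] (a b : M → ℝ)
  (hab : ∀ p q : M, dist p q = |a p - a q| + |b p - b q|)

/-- the grid coordinates -/
noncomputable def gr [DecidableEq ℝ] (a b : M → ℝ) (A : Finset M) (p : A) :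
    ↥(A.image a) × ↥(A.image b) :=
  (⟨a p, mem_image_of_mem a p.2⟩, ⟨b p, mem_image_of_mem b p.2⟩)

include hab

lemma gr_inj [DecidableEq ℝ] (A : Finset M) : Function.Injective (gr a b A) := by
  intro p q h
  have h1 : a p = a q := by
    have := congrArg (fun z => (z.1 : ℝ)) h
    simpa [gr] using this
  have h2 : b p = b q := by
    have := congrArg (fun z => (z.2 : ℝ)) h
    simpa [gr] using this
  have : dist (p : M) q = 0 := by rw [hab, h1, h2]; simp
  exact Subtype.ext (dist_eq_zero.1 this)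

lemma sim_eq [DecidableEq ℝ] (A : Finset M) : simMatrix A =
    (KM (A.image a) ⊗ₖ KM (A.image b)).submatrix (gr a b A) (gr a b A) := by
  ext p q
  simp only [simMatrix, submatrix_apply, kroneckerMap_apply, KM, gr]
  rw [hab, ← Real.exp_add]
  congr 1
  ring

lemma sim_posDef (A : Finset M) : (simMatrix A).PosDef := by
  classical
  rw [sim_eq a b hab]
  exact ((KM_posDef _).kronecker (KM_posDef _)).submatrix (gr_inj a b hab A)

lemma sim_sub (A : Finset M) (a0 b0 L : ℝ) (hL : 0 ≤ L) (ha : ∀ p ∈ A, a0 ≤ a p ∧ a p ≤ a0 + L)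
    (hb : ∀ p ∈ A, b0 ≤ b p ∧ b p ≤ b0 + L) (w : M → ℝ) :
    (∑ x ∈ A, w x) ^ 2 ≤ (1 + L / 2) ^ 2 * Q A w := by
  classical
  set C := 1 + L / 2 with hC
  have hC0 : 0 < C := by positivity
  have hX : (KM (A.image a) - Jm _ C⁻¹).PosSemidef := by
    have := KM_sub (A.image a) a0 (a0 + L) (by linarith)
      (fun x hx => by
        obtain ⟨p, hp, rfl⟩ := mem_image.1 hx
        exact (ha p hp).1)
      (fun x hx => by
        obtain ⟨p, hp, rfl⟩ := mem_image.1 hx
        exact (ha p hp).2)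
    rwa [show 1 + (a0 + L - a0) / 2 = C by rw [hC]; ring] at this
  have hY : (KM (A.image b) - Jm _ C⁻¹).PosSemidef := by
    have := KM_sub (A.image b) b0 (b0 + L) (by linarith)
      (fun x hx => by
        obtain ⟨p, hp, rfl⟩ := mem_image.1 hx
        exact (hb p hp).1)
      (fun x hx => by
        obtain ⟨p, hp, rfl⟩ := mem_image.1 hx
        exact (hb p hp).2)
    rwa [show 1 + (b0 + L - b0) / 2 = C by rw [hC]; ring] at this
  have hsum : ((KM (A.image a) - Jm _ C⁻¹) ⊗ₖ KM (A.image b) +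
      Jm _ C⁻¹ ⊗ₖ (KM (A.image b) - Jm _ C⁻¹)).PosSemidef :=
    (hX.kronecker (KM_posDef _).posSemidef).add
      ((Jm_psd _ _ (inv_pos.2 hC0).le).kronecker hY)
  have heq : simMatrix A - Jm A (C⁻¹ ^ 2) = ((KM (A.image a) - Jm _ C⁻¹) ⊗ₖ KM (A.image b) +
      Jm _ C⁻¹ ⊗ₖ (KM (A.image b) - Jm _ C⁻¹)).submatrix (gr a b A) (gr a b A) := by
    rw [sim_eq a b hab]
    ext p q
    simp only [Matrix.sub_apply, submatrix_apply, kroneckerMap_apply, Matrix.add_apply, Jm]
    ring
  have hpsd : (simMatrix A - Jm A (C⁻¹ ^ 2)).PosSemidef := by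
    rw [heq]; exact hsum.submatrix _
  have h1 := hpsd.dotProduct_mulVec_nonneg (fun x : A => w x)
  have h2 : (fun x : A => w x) ⬝ᵥ (Jm A (C⁻¹ ^ 2) *ᵥ (fun x : A => w x)) =
      C⁻¹ ^ 2 * (∑ x ∈ A, w x) ^ 2 := by
    have e : ∑ x : A, w x = ∑ x ∈ A, w x := by
      rw [← Finset.sum_attach A, Finset.univ_eq_attach]
    rw [← e]
    simp only [dotProduct, mulVec, Jm, ← Finset.mul_sum, sq, ← Finset.sum_mul]
    ring
  rw [star_trivial, sub_mulVec, dotProduct_sub, h2, ← Q_eq] at h1
  have h3 := mul_nonneg (sq_nonneg C) h1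
  have h4 : C ^ 2 * (Q A w - C⁻¹ ^ 2 * (∑ x ∈ A, w x) ^ 2) =
      C ^ 2 * Q A w - (∑ x ∈ A, w x) ^ 2 := by
    field_simp
  rw [h4] at h3
  linarith

end plane


section infinite

open Set Filter Topology Metric TopologicalSpace

/-- the magnitude of a subset `K` of a metric space: the supremum of the magnitudes of the nonempty
finite subsets of `K` -/
noncomputable def magnitude {M : Type*} [MetricSpace M] (K : Set M) : EReal :=
  ⨆ A ∈ {A : Finset M | A.Nonempty ∧ (A : Set M) ⊆ K}, ((finMag A : ℝ) : EReal)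

/-- tractable metric spaces: positive definite, with the Heine–Borel property, and such that all
closed balls have finite magnitude -/
structure Tractable (M : Type*) [MetricSpace M] : Prop where
  posDef : ∀ A : Finset M, A.Nonempty → (simMatrix A).PosDef
  heineBorel : ∀ s : Set M, IsClosed s → Bornology.IsBounded s → IsCompact s
  finite : ∀ (x : M) (r : ℝ), magnitude (closedBall x r) < ⊤

/-- magnitude as a real function on the space of nonempty compact subsets of `M`, which carries the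
Hausdorff metric -/
noncomputable def magCmp (M : Type*) [MetricSpace M] (K : NonemptyCompacts M) : ℝ :=
  (magnitude (K : Set M)).toReal

variable {M : Type*} [MetricSpace M]

lemma le_magnitude (K : Set M) (A : Finset M) (hA : A.Nonempty) (hAK : (A : Set M) ⊆ K) :
    ((finMag A : ℝ) : EReal) ≤ magnitude K :=
  le_iSup₂_of_le (f := fun (A : Finset M) (_ : A ∈ {A : Finset M | A.Nonempty ∧ (A : Set M) ⊆ K}) =>
    ((finMag A : ℝ) : EReal)) A ⟨hA, hAK⟩ le_rfl

lemma magnitude_le (K : Set M) (C : ℝ)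
    (h : ∀ A : Finset M, A.Nonempty → (A : Set M) ⊆ K → finMag A ≤ C) : magnitude K ≤ (C : EReal) :=
  iSup₂_le fun A hA => by exact_mod_cast h A hA.1 hA.2

lemma magCmp_le (K : NonemptyCompacts M) (C : ℝ)
    (h : ∀ A : Finset M, A.Nonempty → (A : Set M) ⊆ K → finMag A ≤ C) : magCmp M K ≤ C := by
  obtain ⟨x, hx⟩ := K.nonempty
  have h1 := le_magnitude (K : Set M) {x} (Finset.singleton_nonempty x) (by simpa using hx)
  have h2 := magnitude_le (K : Set M) C h
  have h3 : magnitude (K : Set M) ≠ ⊥ := fun h0 => by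
    rw [h0] at h1
    exact absurd h1 (by simp)
  have := EReal.toReal_le_toReal h2 h3 (EReal.coe_ne_top C)
  simpa [magCmp] using this

lemma le_magCmp (K : NonemptyCompacts M) (C : ℝ)
    (h : ∀ A : Finset M, A.Nonempty → (A : Set M) ⊆ K → finMag A ≤ C)
    (A : Finset M) (hA : A.Nonempty) (hAK : (A : Set M) ⊆ K) : finMag A ≤ magCmp M K := by
  have h1 := le_magnitude (K : Set M) A hA hAK
  have h2 := magnitude_le (K : Set M) C h
  have h3 : magnitude (K : Set M) ≠ ⊤ := fun h0 => by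
    rw [h0] at h2
    exact absurd h2 (by simp)
  have := EReal.toReal_le_toReal h1 (EReal.coe_ne_bot _) h3
  simpa [magCmp] using this

variable (a b : M → ℝ) (hab : ∀ p q : M, dist p q = |a p - a q| + |b p - b q|)

include hab

/-- bounded sets have bounded magnitude -/
lemma finMag_ball (x : M) (r : ℝ) (hr : 0 ≤ r) (A : Finset M) (hA : A.Nonempty)
    (hAK : (A : Set M) ⊆ closedBall x r) : finMag A ≤ (1 + (2 * r) / 2) ^ 2 := by
  refine upper A hA (sim_posDef a b hab A) _ fun w => ?_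
  refine sim_sub a b hab A (a x - r) (b x - r) (2 * r) (by linarith) ?_ ?_ w
  · intro p hp
    have h1 := hAK hp
    rw [mem_closedBall, hab] at h1
    have h2 := abs_nonneg (b p - b x)
    have h3 : |a p - a x| ≤ r := by linarith
    rw [abs_le] at h3
    constructor <;> linarith [h3.1, h3.2]
  · intro p hp
    have h1 := hAK hp
    rw [mem_closedBall, hab] at h1
    have h2 := abs_nonneg (a p - a x)
    have h3 : |b p - b x| ≤ r := by linarith
    rw [abs_le] at h3
    constructor <;> linarith [h3.1, h3.2]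

lemma tractable_of (hHB : ∀ s : Set M, IsClosed s → Bornology.IsBounded s → IsCompact s) :
    Tractable M where
  posDef := fun A _ => sim_posDef a b hab A
  heineBorel := hHB
  finite := fun x r => by
    have h1 : magnitude (closedBall x r) ≤ (((1 + (2 * (max r 0)) / 2) ^ 2 : ℝ) : EReal) := by
      refine magnitude_le _ _ fun A hA hAK => ?_
      exact finMag_ball a b hab x (max r 0) (le_max_right _ _) A hA
        (hAK.trans (closedBall_subset_closedBall (le_max_left _ _)))
    exact h1.trans_lt (EReal.coe_lt_top _)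

lemma bdd_of_compact (K : NonemptyCompacts M) :
    ∃ C : ℝ, ∀ A : Finset M, A.Nonempty → (A : Set M) ⊆ K → finMag A ≤ C := by
  obtain ⟨x, hx⟩ := K.nonempty
  obtain ⟨r, hr⟩ := K.isCompact.isBounded.subset_closedBall x
  have hr0 : 0 ≤ r := by
    have := hr hx
    rw [mem_closedBall, dist_self] at this
    exact this
  exact ⟨_, fun A hA hAK => finMag_ball a b hab x r hr0 A hA (hAK.trans hr)⟩

/-- the upper bound for the segment -/
lemma seg_upper (A : Finset M) (hA : ∀ m ∈ A, 0 ≤ a m ∧ a m ≤ 1 / 2 ∧ b m = -a m) (w : M → ℝ) :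
    (∑ x ∈ A, w x) ^ 2 ≤ 3 / 2 * Q A w := by
  classical
  set X := A.image (fun m => 2 * a m) with hX
  set f : A → X := fun m => ⟨2 * a m, mem_image_of_mem _ m.2⟩ with hf
  have h0 := KM_sub X 0 1 zero_le_one
    (fun x hx => by
      obtain ⟨p, hp, rfl⟩ := Finset.mem_image.1 hx
      linarith [(hA p hp).1])
    (fun x hx => by
      obtain ⟨p, hp, rfl⟩ := Finset.mem_image.1 hx
      linarith [(hA p hp).2.1])
  have heq : simMatrix A - Jm A (2 / 3) = (KM X - Jm X (1 + (1 - 0) / 2)⁻¹).submatrix f f := by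
    ext p q
    simp only [Matrix.sub_apply, submatrix_apply, Jm, simMatrix, KM, hf]
    rw [hab, (hA p p.2).2.2, (hA q q.2).2.2]
    congr 1
    · congr 1
      have : -a (p : M) - -a q = -(a p - a q) := by ring
      rw [this, abs_neg]
      have e2 : 2 * a (p : M) - 2 * a q = 2 * (a p - a q) := by ring
      rw [e2, abs_mul, abs_two]
      ring
    · norm_num
  have hpsd : (simMatrix A - Jm A (2 / 3)).PosSemidef := by
    rw [heq]; exact h0.submatrix _
  have h1 := hpsd.dotProduct_mulVec_nonneg (fun x : A => w x)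
  have h2 : (fun x : A => w x) ⬝ᵥ (Jm A (2 / 3) *ᵥ (fun x : A => w x)) =
      2 / 3 * (∑ x ∈ A, w x) ^ 2 := by
    have e : ∑ x : A, w x = ∑ x ∈ A, w x := by
      rw [← Finset.sum_attach A, Finset.univ_eq_attach]
    rw [← e]
    simp only [dotProduct, mulVec, Jm, ← Finset.mul_sum, sq, ← Finset.sum_mul]
    ring
  rw [star_trivial, sub_mulVec, dotProduct_sub, h2, ← Q_eq] at h1
  linarith

lemma seg_point_upper (p : M) (hp : 1 / 2 ≤ a p) (hp' : 0 ≤ b p) (hD : a p + b p = Real.log 2)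
    (A : Finset M) (hA : ∀ m ∈ A, (0 ≤ a m ∧ a m ≤ 1 / 2 ∧ b m = -a m) ∨ m = p) (w : M → ℝ) :
    (∑ x ∈ A, w x) ^ 2 ≤ 8 / 5 * Q A w := by
  classical
  by_cases hpA : p ∈ A
  · set B := A.erase p with hB
    have hAB : A = insert p B := (Finset.insert_erase hpA).symm
    have hpB : p ∉ B := Finset.notMem_erase p A
    have hBm : ∀ m ∈ B, 0 ≤ a m ∧ a m ≤ 1 / 2 ∧ b m = -a m := by
      intro m hm
      rcases hA m (Finset.mem_of_mem_erase hm) with h | h
      · exact h
      · exact absurd h (Finset.ne_of_mem_erase hm)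
    have h1 := seg_upper a b hab B hBm w
    have hd : ∀ m ∈ B, Real.exp (-dist m p) = 1 / 2 := by
      intro m hm
      obtain ⟨h2, h3, h4⟩ := hBm m hm
      have : dist m p = Real.log 2 := by
        rw [hab, h4, ← hD, abs_of_nonpos (by linarith), abs_of_nonpos (by linarith)]
        ring
      rw [this, Real.exp_neg, Real.exp_log two_pos]
      norm_num
    have hQ : Q A w = Q B w + w p * (∑ x ∈ B, w x) + w p ^ 2 := by
      rw [hAB]
      unfold Q
      rw [Finset.sum_insert hpB, Finset.sum_insert hpB]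
      have e1 : ∑ x ∈ B, ∑ y ∈ insert p B, w x * w y * Real.exp (-dist x y) =
          ∑ x ∈ B, (w x * w p * (1 / 2) + ∑ y ∈ B, w x * w y * Real.exp (-dist x y)) :=
        Finset.sum_congr rfl fun x hx => by rw [Finset.sum_insert hpB, hd x hx]
      have e2 : ∑ x ∈ B, w p * w x * Real.exp (-dist p x) = ∑ x ∈ B, w p * w x * (1 / 2) :=
        Finset.sum_congr rfl fun x hx => by rw [dist_comm, hd x hx]
      rw [e1, e2, Finset.sum_add_distrib]
      have e3 : ∑ x ∈ B, w x * w p * (1 / 2) = w p * (∑ x ∈ B, w x) * (1 / 2) := by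
        rw [Finset.mul_sum, Finset.sum_mul]
        exact Finset.sum_congr rfl fun x _ => by ring
      have e4 : ∑ x ∈ B, w p * w x * (1 / 2) = w p * (∑ x ∈ B, w x) * (1 / 2) := by
        rw [Finset.mul_sum, Finset.sum_mul]
      rw [e3, e4]
      simp
      ring
    have hS : ∑ x ∈ A, w x = w p + ∑ x ∈ B, w x := by
      rw [hAB, Finset.sum_insert hpB]
    rw [hQ, hS]
    nlinarith [sq_nonneg ((∑ x ∈ B, w x) - 3 * w p)]
  · have h1 := seg_upper a b hab A (fun m hm => by
      rcases hA m hm with h | h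
      · exact h
      · exact absurd (h ▸ hm) hpA) w
    have h2 := Q_nonneg A (sim_posDef a b hab A) w
    linarith

end infinite


section grid

/-- the weights of the grid `0, …, N` for the kernel `q ^ |i - j|` -/
noncomputable def wN (q : ℝ) : ℕ → ℕ → ℝ
  | 0, j => if j = 0 then 1 else 0
  | N + 1, j => wN q N j + (if j = N + 1 then (1 + q)⁻¹ else 0) - (if j = N then (1 + q)⁻¹ * q else 0)

lemma wN_zero (q : ℝ) (N : ℕ) : ∀ j, N < j → wN q N j = 0 := by
  induction N with
  | zero => intro j hj; simp [wN, hj.ne']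
  | succ N ih =>
    intro j hj
    rw [wN, ih j (by omega), if_neg (by omega), if_neg (by omega)]
    simp

lemma sum_wN_succ (q : ℝ) (N : ℕ) (f : ℕ → ℝ) :
    ∑ j ∈ Finset.range (N + 2), wN q (N + 1) j * f j =
      ∑ j ∈ Finset.range (N + 1), wN q N j * f j + (1 + q)⁻¹ * (f (N + 1) - q * f N) := by
  have h1 : ∀ j, wN q (N + 1) j * f j = wN q N j * f j +
      (if j = N + 1 then (1 + q)⁻¹ * f (N + 1) else 0) -
      (if j = N then (1 + q)⁻¹ * q * f N else 0) := by
    intro j
    rw [wN]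
    by_cases h : j = N + 1
    · subst h
      simp
      ring
    · by_cases h' : j = N
      · subst h'; simp; ring
      · simp [h, h']
  simp only [h1, Finset.sum_add_distrib, Finset.sum_sub_distrib]
  rw [Finset.sum_range_succ _ (N + 1), wN_zero q N (N + 1) (Nat.lt_succ_self N)]
  rw [Finset.sum_ite_eq' (Finset.range (N + 2)) (N + 1), Finset.sum_ite_eq' (Finset.range (N + 2)) N]
  simp
  ring

lemma pot (z : ℝ) (_hz : 0 ≤ z) (N : ℕ) :
    (∀ i : ℕ, i ≤ N → ∑ j ∈ Finset.range (N + 1), wN (Real.exp (-z)) N j *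
      Real.exp (-(z * |(i : ℝ) - j|)) = 1) ∧
    (∀ i : ℕ, N ≤ i → ∑ j ∈ Finset.range (N + 1), wN (Real.exp (-z)) N j *
      Real.exp (-(z * |(i : ℝ) - j|)) = Real.exp (-(z * ((i : ℝ) - N)))) := by
  set q := Real.exp (-z) with hq
  have hq0 : 0 < q := Real.exp_pos _
  induction N with
  | zero =>
    constructor
    · intro i hi
      have : i = 0 := by omega
      subst this
      simp [wN]
    · intro i _
      simp [wN]
  | succ N ih =>
    obtain ⟨ih1, ih2⟩ := ih
    constructor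
    · intro i hi
      rw [sum_wN_succ q N (fun j => Real.exp (-(z * |(i : ℝ) - j|)))]
      rcases Nat.lt_or_ge N i with h | h
      · have hi' : i = N + 1 := by omega
        subst hi'
        rw [ih2 (N + 1) (by omega)]
        have e1 : Real.exp (-(z * (((N + 1 : ℕ) : ℝ) - N))) = q := by
          rw [hq]; congr 1; push_cast; ring
        have e2 : Real.exp (-(z * |((N + 1 : ℕ) : ℝ) - ((N + 1 : ℕ) : ℝ)|)) = 1 := by simp
        have e3 : Real.exp (-(z * |((N + 1 : ℕ) : ℝ) - (N : ℝ)|)) = q := by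
          rw [hq]; congr 1; push_cast
          rw [show (N : ℝ) + 1 - N = 1 by ring, abs_one]; ring
        rw [e1, e2, e3]
        field_simp
        ring
      · rw [ih1 i h]
        have hiN : (i : ℝ) ≤ N := by exact_mod_cast h
        have e1 : Real.exp (-(z * |(i : ℝ) - ((N + 1 : ℕ) : ℝ)|)) =
            q * Real.exp (-(z * |(i : ℝ) - (N : ℝ)|)) := by
          rw [hq, ← Real.exp_add]
          congr 1
          rw [abs_of_nonpos (show (i : ℝ) - ((N + 1 : ℕ) : ℝ) ≤ 0 by push_cast; linarith),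
            abs_of_nonpos (show (i : ℝ) - (N : ℝ) ≤ 0 by linarith)]
          push_cast
          ring
        rw [e1]
        simp
    · intro i hi
      have hiN : (N : ℝ) + 1 ≤ i := by exact_mod_cast hi
      rw [sum_wN_succ q N (fun j => Real.exp (-(z * |(i : ℝ) - j|))), ih2 i (by omega)]
      have e1 : Real.exp (-(z * ((i : ℝ) - N))) = q * Real.exp (-(z * ((i : ℝ) - ((N + 1 : ℕ) : ℝ)))) := by
        rw [hq, ← Real.exp_add]; congr 1; push_cast; ring
      have e2 : Real.exp (-(z * |(i : ℝ) - ((N + 1 : ℕ) : ℝ)|)) =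
          Real.exp (-(z * ((i : ℝ) - ((N + 1 : ℕ) : ℝ)))) := by
        rw [abs_of_nonneg (by push_cast; linarith)]
      have e3 : Real.exp (-(z * |(i : ℝ) - (N : ℝ)|)) =
          q * Real.exp (-(z * ((i : ℝ) - ((N + 1 : ℕ) : ℝ)))) := by
        rw [abs_of_nonneg (by linarith), e1]
      rw [e1, e2, e3]
      have : (1 + q) ≠ 0 := by positivity
      field_simp
      ring

/-- the magnitude of the grid -/
noncomputable def mN (z : ℝ) (N : ℕ) : ℝ := 1 + N * ((1 - Real.exp (-z)) / (1 + Real.exp (-z)))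

lemma sum_wN (z : ℝ) (N : ℕ) :
    ∑ j ∈ Finset.range (N + 1), wN (Real.exp (-z)) N j = mN z N := by
  induction N with
  | zero => simp [wN, mN]
  | succ N ih =>
    have h := sum_wN_succ (Real.exp (-z)) N (fun _ => 1)
    simp only [mul_one] at h
    rw [h, ih, mN, mN]
    have : (1 + Real.exp (-z)) ≠ 0 := by positivity
    push_cast
    field_simp
    ring

lemma energy_wN (z : ℝ) (hz : 0 ≤ z) (N : ℕ) :
    ∑ i ∈ Finset.range (N + 1), ∑ j ∈ Finset.range (N + 1),
      wN (Real.exp (-z)) N i * wN (Real.exp (-z)) N j * Real.exp (-(z * |(i : ℝ) - j|)) = mN z N := by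
  rw [← sum_wN]
  refine Finset.sum_congr rfl fun i hi => ?_
  have := (pot z hz N).1 i (by simpa [Nat.lt_succ_iff] using hi)
  have e : ∑ j ∈ Finset.range (N + 1),
      wN (Real.exp (-z)) N i * wN (Real.exp (-z)) N j * Real.exp (-(z * |(i : ℝ) - j|)) =
      wN (Real.exp (-z)) N i * ∑ j ∈ Finset.range (N + 1), wN (Real.exp (-z)) N j *
      Real.exp (-(z * |(i : ℝ) - j|)) := by
    rw [Finset.mul_sum]
    exact Finset.sum_congr rfl fun j _ => by ring
  rw [e, this, mul_one]

end grid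

section limits

open Filter Topology

lemma lim_z : Tendsto (fun N : ℕ => 1 / ((N : ℝ) + 1)) atTop (𝓝 0) :=
  tendsto_one_div_add_atTop_nhds_zero_nat

/-- `(N + 1) (1 - exp (- 1 / (N + 1))) → 1` -/
lemma lim_one_sub : Tendsto (fun N : ℕ => ((N : ℝ) + 1) * (1 - Real.exp (-(1 / ((N : ℝ) + 1)))))
    atTop (𝓝 1) := by
  have h1 : Tendsto (fun N : ℕ => 1 / (1 + 1 / ((N : ℝ) + 1))) atTop (𝓝 1) := by
    have h := (tendsto_const_nhds (x := (1 : ℝ))).add lim_z
    rw [add_zero] at h
    have h' := h.inv₀ one_ne_zero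
    rw [inv_one] at h'
    exact h'.congr fun N => (one_div _).symm
  refine tendsto_of_tendsto_of_tendsto_of_le_of_le h1 tendsto_const_nhds ?_ ?_
  · intro N
    have hN : (0 : ℝ) < (N : ℝ) + 1 := by positivity
    set z := 1 / ((N : ℝ) + 1) with hz
    have hz0 : 0 < z := by positivity
    have h2 : Real.exp (-z) ≤ 1 / (1 + z) := by
      rw [Real.exp_neg, ← one_div]
      exact one_div_le_one_div_of_le (by positivity) (by linarith [Real.add_one_le_exp z])
    have h3 : z / (1 + z) ≤ 1 - Real.exp (-z) := by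
      have : z / (1 + z) = 1 - 1 / (1 + z) := by field_simp; ring
      rw [this]; linarith
    have h4 := mul_le_mul_of_nonneg_left h3 hN.le
    have h5 : ((N : ℝ) + 1) * (z / (1 + z)) = 1 / (1 + z) := by
      rw [hz]; field_simp
    simp only
    linarith
  · intro N
    have hN : (0 : ℝ) < (N : ℝ) + 1 := by positivity
    set z := 1 / ((N : ℝ) + 1) with hz
    have h3 : 1 - Real.exp (-z) ≤ z := by linarith [Real.add_one_le_exp (-z)]
    have h4 := mul_le_mul_of_nonneg_left h3 hN.le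
    have h5 : ((N : ℝ) + 1) * z = 1 := by rw [hz]; field_simp
    simp only
    linarith

lemma lim_exp : Tendsto (fun N : ℕ => Real.exp (1 / ((N : ℝ) + 1))) atTop (𝓝 1) := by
  have := (Real.continuous_exp.tendsto 0).comp lim_z
  simpa [Function.comp_def] using this

lemma lim_exp_neg : Tendsto (fun N : ℕ => Real.exp (-(1 / ((N : ℝ) + 1)))) atTop (𝓝 1) := by
  have h := lim_z.neg
  rw [neg_zero] at h
  have := (Real.continuous_exp.tendsto 0).comp h
  simpa [Function.comp_def] using this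

/-- `(N + 1) (exp (1 / (N + 1)) - 1) → 1` -/
lemma lim_sub_one : Tendsto (fun N : ℕ => ((N : ℝ) + 1) * (Real.exp (1 / ((N : ℝ) + 1)) - 1))
    atTop (𝓝 1) := by
  have h := lim_one_sub.mul lim_exp
  rw [mul_one] at h
  refine h.congr fun N => ?_
  have : Real.exp (-(1 / ((N : ℝ) + 1))) * Real.exp (1 / ((N : ℝ) + 1)) = 1 := by
    rw [← Real.exp_add]; simp
  calc _ = ((N : ℝ) + 1) * (Real.exp (1 / ((N : ℝ) + 1)) -
      Real.exp (-(1 / ((N : ℝ) + 1))) * Real.exp (1 / ((N : ℝ) + 1))) := by ring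
    _ = _ := by rw [this]

lemma lim_mN : Tendsto (fun N : ℕ => mN (1 / ((N : ℝ) + 1)) (N + 1)) atTop (𝓝 (3 / 2)) := by
  have h1 : Tendsto (fun N : ℕ => 1 + (((N : ℝ) + 1) * (1 - Real.exp (-(1 / ((N : ℝ) + 1))))) /
      (1 + Real.exp (-(1 / ((N : ℝ) + 1))))) atTop (𝓝 (1 + 1 / (1 + 1))) :=
    tendsto_const_nhds.add (lim_one_sub.div (tendsto_const_nhds.add lim_exp_neg) (by norm_num))
  rw [show (1 : ℝ) + 1 / (1 + 1) = 3 / 2 by norm_num] at h1
  refine h1.congr fun N => ?_
  rw [mN]
  push_cast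
  ring

/-- the energy of the chosen weights on the doubled grid with the additional point -/
noncomputable def EN (N : ℕ) : ℝ :=
  (4 / 5) ^ 2 * mN (1 / ((N : ℝ) + 1)) (N + 1) -
    2 * (1 - Real.exp (-(1 / ((N : ℝ) + 1)))) * (-1 / 10) * ((4 / 5) * mN (1 / ((N : ℝ) + 1)) (N + 1)) +
    2 * (1 - Real.exp (-(1 / ((N : ℝ) + 1)))) * (-1 / 10) ^ 2 * ((N : ℝ) + 2) +
    (2 / 5) * ((4 / 5) * mN (1 / ((N : ℝ) + 1)) (N + 1) +
      (-1 / 10) * ((N : ℝ) + 2) * (Real.exp (1 / ((N : ℝ) + 1)) - 1)) + (2 / 5) ^ 2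

lemma lim_EN : Tendsto EN atTop (𝓝 (79 / 50)) := by
  have hk : Tendsto (fun N : ℕ => 1 - Real.exp (-(1 / ((N : ℝ) + 1)))) atTop (𝓝 0) := by
    have := (tendsto_const_nhds (x := (1 : ℝ))).sub lim_exp_neg
    simpa using this
  have hk' : Tendsto (fun N : ℕ => Real.exp (1 / ((N : ℝ) + 1)) - 1) atTop (𝓝 0) := by
    have := lim_exp.sub (tendsto_const_nhds (x := (1 : ℝ)))
    simpa using this
  have h1 := lim_one_sub.add hk
  have h2 := lim_sub_one.add hk'
  have h3 := ((((lim_mN.const_mul ((4 / 5 : ℝ) ^ 2)).sub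
    ((hk.mul lim_mN).const_mul (2 * (-1 / 10) * (4 / 5) : ℝ))).add
    (h1.const_mul (2 * (-1 / 10) ^ 2 : ℝ))).add
    (((lim_mN.const_mul (4 / 5 : ℝ)).add (h2.const_mul (-1 / 10 : ℝ))).const_mul (2 / 5 : ℝ))).add
    (tendsto_const_nhds (x := ((2 / 5 : ℝ) ^ 2)))
  have e : ((4 / 5 : ℝ) ^ 2 * (3 / 2) - 2 * (-1 / 10) * (4 / 5) * (0 * (3 / 2)) +
    2 * (-1 / 10) ^ 2 * (1 + 0) + 2 / 5 * (4 / 5 * (3 / 2) + -1 / 10 * (1 + 0)) + (2 / 5) ^ 2) =
    79 / 50 := by norm_num
  rw [e] at h3
  refine h3.congr fun N => ?_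
  rw [EN]
  ring

end limits


section jump

open Set Filter Topology Metric TopologicalSpace

lemma block (n : ℕ) (W : Fin n → ℝ) (E : Fin n → Fin n → ℝ) (κ γ β r : ℝ) :
    (∑ i, (∑ j, (W i - γ) * (W j - γ) * E i j +
        ∑ j, (W i - γ) * γ * (E i j - if i = j then κ else 0) + (W i - γ) * β * (1 / 2))) +
      (∑ i, (∑ j, γ * (W j - γ) * (E i j - if i = j then κ else 0) +
        ∑ j, γ * γ * E i j + γ * β * (r / 2))) +
      (∑ j, β * (W j - γ) * (1 / 2) + (Finset.univ : Finset (Fin n)).card • (β * γ * (r / 2)) +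
        β * β) =
    ∑ i, ∑ j, W i * W j * E i j - 2 * κ * γ * ∑ i, W i + 2 * κ * γ ^ 2 * n +
      β * (∑ i, W i + γ * n * (r - 1)) + β ^ 2 := by
  have h1 : ∑ i, ∑ j, (W i - γ) * (W j - γ) * E i j +
      ∑ i, ∑ j, (W i - γ) * γ * (E i j - if i = j then κ else 0) +
      ∑ i, ∑ j, γ * (W j - γ) * (E i j - if i = j then κ else 0) +
      ∑ i, ∑ j, γ * γ * E i j =
      ∑ i, ∑ j, W i * W j * E i j - 2 * κ * γ * ∑ i, W i + 2 * κ * γ ^ 2 * n := by
    have h2 : ∀ i j : Fin n, (W i - γ) * (W j - γ) * E i j +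
        (W i - γ) * γ * (E i j - if i = j then κ else 0) +
        γ * (W j - γ) * (E i j - if i = j then κ else 0) + γ * γ * E i j =
        W i * W j * E i j - if i = j then 2 * κ * γ * W j - 2 * κ * γ ^ 2 else 0 := by
      intro i j
      by_cases h : i = j
      · subst h; simp; ring
      · simp [h]; ring
    simp only [← Finset.sum_add_distrib, h2]
    simp only [Finset.sum_sub_distrib, Finset.sum_ite_eq, Finset.mem_univ, if_true, Finset.sum_const,
      Finset.card_univ, Fintype.card_fin, nsmul_eq_mul, ← Finset.mul_sum]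
    ring
  simp only [Finset.sum_add_distrib]
  have h3 : ∑ i, (W i - γ) * β * (1 / 2) = (∑ i, W i - γ * n) * β * (1 / 2) := by
    rw [← Finset.sum_mul, ← Finset.sum_mul, Finset.sum_sub_distrib, Finset.sum_const,
      Finset.card_univ, Fintype.card_fin, nsmul_eq_mul]
    ring
  have h4 : ∑ j, β * (W j - γ) * (1 / 2) = (∑ i, W i - γ * n) * β * (1 / 2) := by
    rw [← h3]
    exact Finset.sum_congr rfl fun j _ => by ring
  rw [h3, h4]
  simp only [Finset.sum_const, Finset.card_univ, Fintype.card_fin, nsmul_eq_mul]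
  linear_combination h1

variable {M : Type*} [MetricSpace M]

/-- the points of the doubled grid and the additional point -/
noncomputable def pts (e : ℝ × ℝ → M) (x0 y0 : ℝ) (N : ℕ) : (Fin (N + 2) ⊕ Fin (N + 2)) ⊕ Unit → M
  | .inl (.inl i) => e ((i : ℕ) * (1 / (2 * ((N : ℝ) + 1))), -((i : ℕ) * (1 / (2 * ((N : ℝ) + 1)))))
  | .inl (.inr i) => e ((i : ℕ) * (1 / (2 * ((N : ℝ) + 1))) + 1 / (2 * ((N : ℝ) + 1)),
      -((i : ℕ) * (1 / (2 * ((N : ℝ) + 1)))) + 1 / (2 * ((N : ℝ) + 1)))
  | .inr _ => e (x0, y0)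

variable (a b : M → ℝ) (hab : ∀ p q : M, dist p q = |a p - a q| + |b p - b q|)
  (e : ℝ × ℝ → M) (hea : ∀ z, a (e z) = z.1) (heb : ∀ z, b (e z) = z.2)

include hab hea heb

lemma dist_e (z z' : ℝ × ℝ) : dist (e z) (e z') = |z.1 - z'.1| + |z.2 - z'.2| := by
  rw [hab, hea, heb, hea, heb]

lemma lower_EN (x0 y0 : ℝ) (hxy : x0 + y0 = Real.log 2) (N : ℕ)
    (hx : 1 / 2 + 1 / (2 * ((N : ℝ) + 1)) ≤ x0) (hy : 1 / (2 * ((N : ℝ) + 1)) ≤ y0)
    (A : Finset M) (hA : ∀ i, pts e x0 y0 N i ∈ A) :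
    ((4 / 5) * mN (1 / ((N : ℝ) + 1)) (N + 1) + 2 / 5) ^ 2 ≤ finMag A * EN N := by
  have hAne : A.Nonempty := ⟨_, hA (.inr ())⟩
  have hN : (0 : ℝ) < (N : ℝ) + 1 := by positivity
  set h := 1 / (2 * ((N : ℝ) + 1)) with hh
  have hh0 : 0 < h := by positivity
  set z := 1 / ((N : ℝ) + 1) with hz
  have hz2 : z = 2 * h := by rw [hz, hh]; field_simp
  have hz0 : 0 ≤ z := by positivity
  set q := Real.exp (-z) with hq
  have hNh : ((N : ℝ) + 1) * h = 1 / 2 := by rw [hh]; field_simp
  set W : Fin (N + 2) → ℝ := fun i => (4 / 5) * wN q (N + 1) i with hW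
  set v : (Fin (N + 2) ⊕ Fin (N + 2)) ⊕ Unit → ℝ := fun i => match i with
    | .inl (.inl i) => W i - (-1 / 10)
    | .inl (.inr _) => -1 / 10
    | .inr _ => 2 / 5 with hv
  have hmain := lower_index A hAne (sim_posDef a b hab A) (pts e x0 y0 N) hA v
  -- sums of the weights
  have hsW : ∑ i, W i = (4 / 5) * mN z (N + 1) := by
    rw [hW, ← Finset.mul_sum, ← sum_wN, ← hq, Finset.sum_range (fun i => wN q (N + 1) i)]
  have hsum : ∑ i, v i = (4 / 5) * mN z (N + 1) + 2 / 5 := by
    simp only [Fintype.sum_sum_type, hv, Finset.univ_unique, Finset.sum_const,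
      Finset.card_singleton, one_smul, Finset.sum_sub_distrib]
    rw [hsW]
    ring
  -- the kernel
  set E : Fin (N + 2) → Fin (N + 2) → ℝ := fun i j => Real.exp (-(z * |((i : ℕ) : ℝ) - ((j : ℕ) : ℝ)|))
    with hE
  have hi : ∀ i : Fin (N + 2), ((i : ℕ) : ℝ) * h ≤ 1 / 2 := by
    intro i
    have : ((i : ℕ) : ℝ) ≤ (N : ℝ) + 1 := by
      have := i.2
      exact_mod_cast (by omega : (i : ℕ) ≤ N + 1)
    rw [← hNh]
    exact mul_le_mul_of_nonneg_right this hh0.le
  have hi0 : ∀ i : Fin (N + 2), 0 ≤ ((i : ℕ) : ℝ) * h := fun i => by positivity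
  have k1 : ∀ i j : Fin (N + 2), Real.exp (-dist (pts e x0 y0 N (.inl (.inl i)))
      (pts e x0 y0 N (.inl (.inl j)))) = E i j := by
    intro i j
    simp only [pts, dist_e a b hab e hea heb, hE, ← hh]
    congr 2
    rw [show -(((i : ℕ) : ℝ) * h) - -(((j : ℕ) : ℝ) * h) = -(((i : ℕ) : ℝ) * h - ((j : ℕ) : ℝ) * h) by ring,
      abs_neg, ← sub_mul, abs_mul, abs_of_pos hh0, hz2]
    ring
  have k4 : ∀ i j : Fin (N + 2), Real.exp (-dist (pts e x0 y0 N (.inl (.inr i)))
      (pts e x0 y0 N (.inl (.inr j)))) = E i j := by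
    intro i j
    simp only [pts, dist_e a b hab e hea heb, hE, ← hh]
    congr 2
    rw [show -(((i : ℕ) : ℝ) * h) + h - (-(((j : ℕ) : ℝ) * h) + h) =
        -(((i : ℕ) : ℝ) * h - ((j : ℕ) : ℝ) * h) by ring,
      show ((i : ℕ) : ℝ) * h + h - (((j : ℕ) : ℝ) * h + h) = ((i : ℕ) : ℝ) * h - ((j : ℕ) : ℝ) * h by ring,
      abs_neg, ← sub_mul, abs_mul, abs_of_pos hh0, hz2]
    ring
  have k2 : ∀ i j : Fin (N + 2), Real.exp (-dist (pts e x0 y0 N (.inl (.inl i)))
      (pts e x0 y0 N (.inl (.inr j)))) = E i j - if i = j then 1 - q else 0 := by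
    intro i j
    simp only [pts, dist_e a b hab e hea heb, hE, ← hh]
    by_cases hij : i = j
    · subst hij
      simp only [if_true, sub_self, abs_zero, mul_zero, neg_zero, Real.exp_zero]
      rw [hq, sub_sub_cancel]
      congr 1
      rw [show ((i : ℕ) : ℝ) * h - (((i : ℕ) : ℝ) * h + h) = -h by ring,
        show -(((i : ℕ) : ℝ) * h) - (-(((i : ℕ) : ℝ) * h) + h) = -h by ring, abs_neg,
        abs_of_pos hh0, hz2]
      ring
    · rw [if_neg hij, sub_zero]
      congr 2
      have hne : ((i : ℕ) : ℤ) ≠ ((j : ℕ) : ℤ) := by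
        intro h'
        exact hij (Fin.ext (by exact_mod_cast h'))
      rcases lt_or_gt_of_ne hne with h' | h'
      · have h1 : ((i : ℕ) : ℝ) + 1 ≤ ((j : ℕ) : ℝ) := by exact_mod_cast h'
        have h2 := mul_le_mul_of_nonneg_right h1 hh0.le
        rw [abs_of_nonpos (show ((i : ℕ) : ℝ) * h - (((j : ℕ) : ℝ) * h + h) ≤ 0 by nlinarith),
          abs_of_nonneg (show 0 ≤ -(((i : ℕ) : ℝ) * h) - (-(((j : ℕ) : ℝ) * h) + h) by nlinarith),
          abs_of_nonpos (show ((i : ℕ) : ℝ) - ((j : ℕ) : ℝ) ≤ 0 by linarith), hz2]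
        ring
      · have h1 : ((j : ℕ) : ℝ) + 1 ≤ ((i : ℕ) : ℝ) := by exact_mod_cast h'
        have h2 := mul_le_mul_of_nonneg_right h1 hh0.le
        rw [abs_of_nonneg (show 0 ≤ ((i : ℕ) : ℝ) * h - (((j : ℕ) : ℝ) * h + h) by nlinarith),
          abs_of_nonpos (show -(((i : ℕ) : ℝ) * h) - (-(((j : ℕ) : ℝ) * h) + h) ≤ 0 by nlinarith),
          abs_of_nonneg (show 0 ≤ ((i : ℕ) : ℝ) - ((j : ℕ) : ℝ) by linarith), hz2]
        ring
  have k3 : ∀ i j : Fin (N + 2), Real.exp (-dist (pts e x0 y0 N (.inl (.inr i)))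
      (pts e x0 y0 N (.inl (.inl j)))) = E i j - if i = j then 1 - q else 0 := by
    intro i j
    rw [dist_comm, k2 j i]
    congr 1
    · simp only [hE]; rw [abs_sub_comm]
    · by_cases hij : i = j
      · rw [if_pos hij, if_pos hij.symm]
      · rw [if_neg hij, if_neg (Ne.symm hij)]
  have k5 : ∀ (i : Fin (N + 2)) (u : Unit), Real.exp (-dist (pts e x0 y0 N (.inl (.inl i)))
      (pts e x0 y0 N (.inr u))) = 1 / 2 := by
    intro i u
    simp only [pts, dist_e a b hab e hea heb, ← hh]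
    have h1 := hi i
    have h2 := hi0 i
    rw [abs_of_nonpos (by linarith), abs_of_nonpos (by linarith)]
    have : -(-(((i : ℕ) : ℝ) * h - x0) + -(-(((i : ℕ) : ℝ) * h) - y0)) = -Real.log 2 := by
      rw [← hxy]; ring
    rw [this, Real.exp_neg, Real.exp_log two_pos]
    norm_num
  have k6 : ∀ (i : Fin (N + 2)) (u : Unit), Real.exp (-dist (pts e x0 y0 N (.inl (.inr i)))
      (pts e x0 y0 N (.inr u))) = Real.exp z / 2 := by
    intro i u
    simp only [pts, dist_e a b hab e hea heb, ← hh]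
    have h1 := hi i
    have h2 := hi0 i
    rw [abs_of_nonpos (by linarith), abs_of_nonpos (by linarith)]
    have : -(-(((i : ℕ) : ℝ) * h + h - x0) + -(-(((i : ℕ) : ℝ) * h) + h - y0)) = z + -Real.log 2 := by
      rw [← hxy, hz2]; ring
    rw [this, Real.exp_add, Real.exp_neg, Real.exp_log two_pos]
    ring
  have k7 : ∀ (u u' : Unit), Real.exp (-dist (pts e x0 y0 N (.inr u)) (pts e x0 y0 N (.inr u'))) = 1 := by
    intro u u'
    simp [pts]
  have k5' : ∀ (i : Fin (N + 2)) (u : Unit), Real.exp (-dist (pts e x0 y0 N (.inr u))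
      (pts e x0 y0 N (.inl (.inl i)))) = 1 / 2 := fun i u => by rw [dist_comm, k5 i u]
  have k6' : ∀ (i : Fin (N + 2)) (u : Unit), Real.exp (-dist (pts e x0 y0 N (.inr u))
      (pts e x0 y0 N (.inl (.inr i)))) = Real.exp z / 2 := fun i u => by rw [dist_comm, k6 i u]
  have hquad : ∑ i, ∑ j, v i * v j * Real.exp (-dist (pts e x0 y0 N i) (pts e x0 y0 N j)) = EN N := by
    simp only [Fintype.sum_sum_type, k1, k2, k3, k4, k5, k6, k5', k6', k7, hv,
      Finset.univ_unique, Finset.sum_const, Finset.card_singleton, one_smul, mul_one]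
    have hb := block (N + 2) W E (1 - q) (-1 / 10) (2 / 5) (Real.exp z)
    rw [hb, hsW]
    have hEn : ∑ i, ∑ j, W i * W j * E i j = (4 / 5) ^ 2 * mN z (N + 1) := by
      rw [← energy_wN z hz0 (N + 1), ← hq, Finset.mul_sum, Finset.sum_range (fun i => (4 / 5 : ℝ) ^ 2 *
        ∑ j ∈ Finset.range (N + 1 + 1), wN q (N + 1) i * wN q (N + 1) j *
          Real.exp (-(z * |(i : ℝ) - j|)))]
      refine Finset.sum_congr rfl fun i _ => ?_
      rw [Finset.sum_range (fun j => wN q (N + 1) i * wN q (N + 1) j *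
          Real.exp (-(z * |((i : ℕ) : ℝ) - j|))), Finset.mul_sum]
      refine Finset.sum_congr rfl fun j _ => ?_
      simp only [hW, hE]
      ring
    rw [hEn, EN]
    push_cast
    ring
  rw [hsum, hquad] at hmain
  exact hmain

/-- the doubled grids (with the additional point) as compact sets -/
noncomputable def gridK (e : ℝ × ℝ → M) (x0 y0 : ℝ) (N : ℕ) : NonemptyCompacts M :=
  ⟨⟨Set.range (pts e x0 y0 N), (Set.finite_range _).isCompact⟩, ⟨_, Set.mem_range_self (.inr ())⟩⟩

/-- the segment (with the additional point) as a compact set -/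
noncomputable def segK (e : ℝ × ℝ → M) (hec : Continuous e) (x0 y0 : ℝ) : NonemptyCompacts M :=
  ⟨⟨(fun t : ℝ => e (t, -t)) '' Icc 0 (1 / 2) ∪ {e (x0, y0)},
    (isCompact_Icc.image (hec.comp (by fun_prop))).union isCompact_singleton⟩,
    ⟨_, Or.inr rfl⟩⟩

lemma dist_grid (hec : Continuous e) (x0 y0 : ℝ) (N : ℕ) :
    dist (gridK e x0 y0 N) (segK e hec x0 y0) ≤ 1 / ((N : ℝ) + 1) := by
  have hN : (0 : ℝ) < (N : ℝ) + 1 := by positivity
  set h := 1 / (2 * ((N : ℝ) + 1)) with hh
  have hh0 : 0 < h := by positivity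
  have hz2 : 1 / ((N : ℝ) + 1) = 2 * h := by rw [hh]; field_simp
  have hNh : ((N : ℝ) + 1) * h = 1 / 2 := by rw [hh]; field_simp
  rw [NonemptyCompacts.dist_eq, hz2]
  refine hausdorffDist_le_of_mem_dist (by positivity) ?_ ?_
  · rintro _ ⟨i, rfl⟩
    have hseg : ∀ i : Fin (N + 2), e (((i : ℕ) : ℝ) * h, -(((i : ℕ) : ℝ) * h)) ∈
        ((segK e hec x0 y0 : NonemptyCompacts M) : Set M) := by
      intro i
      refine Or.inl ⟨((i : ℕ) : ℝ) * h, ⟨by positivity, ?_⟩, rfl⟩
      have : ((i : ℕ) : ℝ) ≤ (N : ℝ) + 1 := by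
        have := i.2
        exact_mod_cast (by omega : (i : ℕ) ≤ N + 1)
      rw [← hNh]
      exact mul_le_mul_of_nonneg_right this hh0.le
    rcases i with (i | i) | i
    · refine ⟨_, hseg i, ?_⟩
      simp only [pts, ← hh, dist_self]
      positivity
    · refine ⟨_, hseg i, ?_⟩
      simp only [pts, ← hh]
      rw [dist_e a b hab e hea heb]
      simp only
      rw [show ((i : ℕ) : ℝ) * h + h - ((i : ℕ) : ℝ) * h = h by ring,
        show -(((i : ℕ) : ℝ) * h) + h - -(((i : ℕ) : ℝ) * h) = h by ring, abs_of_pos hh0]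
      linarith
    · refine ⟨e (x0, y0), Or.inr rfl, ?_⟩
      simp only [pts, dist_self]
      positivity
  · rintro m (⟨t, ⟨ht0, ht1⟩, rfl⟩ | hm)
    · have hfl : ⌊t / h⌋₊ < N + 2 := by
        rw [Nat.floor_lt (by positivity), div_lt_iff₀ hh0]
        push_cast
        nlinarith
      refine ⟨pts e x0 y0 N (.inl (.inl ⟨⌊t / h⌋₊, hfl⟩)), Set.mem_range_self _, ?_⟩
      simp only [pts, ← hh]
      rw [dist_e a b hab e hea heb]
      simp only
      have h1 : ((⌊t / h⌋₊ : ℕ) : ℝ) * h ≤ t := by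
        have := Nat.floor_le (show 0 ≤ t / h by positivity)
        rwa [le_div_iff₀ hh0] at this
      have h2 : t < (((⌊t / h⌋₊ : ℕ) : ℝ) + 1) * h := by
        have := Nat.lt_floor_add_one (t / h)
        rwa [div_lt_iff₀ hh0] at this
      rw [abs_of_nonneg (by linarith), abs_of_nonpos (by linarith)]
      nlinarith
    · rw [Set.mem_singleton_iff] at hm
      subst hm
      refine ⟨_, Set.mem_range_self (.inr ()), ?_⟩
      simp only [pts, dist_self]
      positivity

lemma not_cont (hec : Continuous e) : ¬ Continuous (magCmp M) := by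
  classical
  intro hcont
  set y0 := (Real.log 2 - 1 / 2) / 2 with hy0
  set x0 := (Real.log 2 + 1 / 2) / 2 with hx0
  have hlog : (0.69 : ℝ) < Real.log 2 := by linarith [Real.log_two_gt_d9]
  have hxy : x0 + y0 = Real.log 2 := by rw [hx0, hy0]; ring
  set K := segK e hec x0 y0 with hK
  have hlim : Tendsto (fun N => gridK e x0 y0 N) atTop (𝓝 K) := by
    rw [tendsto_iff_dist_tendsto_zero]
    exact squeeze_zero (fun _ => dist_nonneg) (fun N => dist_grid a b hab e hea heb hec x0 y0 N) lim_z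
  have hmag : Tendsto (fun N => magCmp M (gridK e x0 y0 N)) atTop (𝓝 (magCmp M K)) :=
    (hcont.tendsto K).comp hlim
  have hup : magCmp M K ≤ 8 / 5 := by
    refine magCmp_le K _ fun A hA hAK => ?_
    refine upper A hA (sim_posDef a b hab A) _ fun w => ?_
    refine seg_point_upper a b hab (e (x0, y0)) ?_ ?_ ?_ A ?_ w
    · rw [hea]; simp only; rw [hx0]; linarith
    · rw [heb]; simp only; rw [hy0]; linarith
    · rw [hea, heb]; exact hxy
    · intro m hm
      rcases hAK hm with ⟨t, ⟨ht0, ht1⟩, rfl⟩ | h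
      · left
        rw [hea, heb]
        exact ⟨ht0, ht1, rfl⟩
      · right; exact h
  have hlow : ∀ᶠ N : ℕ in atTop, ((4 / 5) * mN (1 / ((N : ℝ) + 1)) (N + 1) + 2 / 5) ^ 2 ≤
      magCmp M (gridK e x0 y0 N) * EN N := by
    have hpos : ∀ᶠ N : ℕ in atTop, 0 < EN N := lim_EN.eventually (lt_mem_nhds (by norm_num))
    filter_upwards [hpos, eventually_ge_atTop 9] with N hN hN9
    have hN9' : (9 : ℝ) ≤ N := by exact_mod_cast hN9
    have hsmall : 1 / (2 * ((N : ℝ) + 1)) ≤ 1 / 20 :=
      one_div_le_one_div_of_le (by norm_num) (by linarith)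
    set A : Finset M := Finset.univ.image (pts e x0 y0 N) with hA
    have hAmem : ∀ i, pts e x0 y0 N i ∈ A := fun i => Finset.mem_image_of_mem _ (Finset.mem_univ _)
    have h1 := lower_EN a b hab e hea heb x0 y0 hxy N (by rw [hx0]; linarith) (by rw [hy0]; linarith)
      A hAmem
    have hsub : (A : Set M) ⊆ ((gridK e x0 y0 N : NonemptyCompacts M) : Set M) := by
      intro m hm
      obtain ⟨i, _, rfl⟩ := Finset.mem_image.1 (Finset.mem_coe.1 hm)
      exact Set.mem_range_self i
    obtain ⟨C, hC⟩ := bdd_of_compact a b hab (gridK e x0 y0 N)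
    have h2 := le_magCmp (gridK e x0 y0 N) C hC A ⟨_, hAmem (.inr ())⟩ hsub
    exact h1.trans (mul_le_mul_of_nonneg_right h2 hN.le)
  have hfin := le_of_tendsto_of_tendsto ((((lim_mN.const_mul (4 / 5 : ℝ)).add
    (tendsto_const_nhds (x := (2 / 5 : ℝ)))).pow 2)) (hmag.mul lim_EN) hlow
  nlinarith

end jump


section L1

open MeasureTheory Set

/-- `L₁ = L₁([0,1], ℝ)` -/
abbrev L1I : Type := Lp ℝ 1 (volume.restrict (Set.Icc (0 : ℝ) 1))

/-- `2 · 1_{[0,1/2]}` -/
noncomputable def f1 : L1I := indicatorConstLp 1 (measurableSet_Icc (a := (0 : ℝ)) (b := 1 / 2))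
  (measure_ne_top _ _) (2 : ℝ)

/-- `2 · 1_{(1/2,1]}` -/
noncomputable def f2 : L1I := indicatorConstLp 1 (measurableSet_Ioc (a := (1 / 2 : ℝ)) (b := 1))
  (measure_ne_top _ _) (2 : ℝ)

lemma norm_comb (x y : ℝ) : ‖x • f1 + y • f2‖ = |x| + |y| := by
  rw [L1.norm_eq_integral_norm]
  have h1 : ∀ᵐ t ∂(volume.restrict (Set.Icc (0 : ℝ) 1)), ‖(x • f1 + y • f2 : L1I) t‖ =
      (Icc (0 : ℝ) (1 / 2)).indicator (fun _ => 2 * |x|) t +
      (Ioc (1 / 2 : ℝ) 1).indicator (fun _ => 2 * |y|) t := by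
    filter_upwards [Lp.coeFn_add (x • f1) (y • f2), Lp.coeFn_smul x f1, Lp.coeFn_smul y f2,
      indicatorConstLp_coeFn (p := 1) (hs := measurableSet_Icc (a := (0 : ℝ)) (b := 1 / 2))
        (hμs := measure_ne_top (volume.restrict (Set.Icc (0 : ℝ) 1)) _) (c := (2 : ℝ)),
      indicatorConstLp_coeFn (p := 1) (hs := measurableSet_Ioc (a := (1 / 2 : ℝ)) (b := 1))
        (hμs := measure_ne_top (volume.restrict (Set.Icc (0 : ℝ) 1)) _) (c := (2 : ℝ))]
      with t e1 e2 e3 e4 e5
    rw [e1, Pi.add_apply, e2, e3, Pi.smul_apply, Pi.smul_apply]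
    change ‖x • (f1 : ℝ → ℝ) t + y • (f2 : ℝ → ℝ) t‖ = _
    rw [f1, f2, e4, e5]
    by_cases ht1 : t ∈ Icc (0 : ℝ) (1 / 2)
    · have ht2 : t ∉ Ioc (1 / 2 : ℝ) 1 := fun h => absurd h.1 (not_lt.2 ht1.2)
      rw [indicator_of_mem ht1, indicator_of_notMem ht2, indicator_of_mem ht1,
        indicator_of_notMem ht2]
      simp [abs_mul, mul_comm]
    · rw [indicator_of_notMem ht1, indicator_of_notMem ht1]
      by_cases ht2 : t ∈ Ioc (1 / 2 : ℝ) 1
      · rw [indicator_of_mem ht2, indicator_of_mem ht2]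
        simp [abs_mul, mul_comm]
      · rw [indicator_of_notMem ht2, indicator_of_notMem ht2]
        simp
  rw [integral_congr_ae h1, integral_add, integral_indicator_const _ measurableSet_Icc,
    integral_indicator_const _ measurableSet_Ioc]
  · have v1 : (volume.restrict (Set.Icc (0 : ℝ) 1)).real (Icc (0 : ℝ) (1 / 2)) = 1 / 2 := by
      rw [measureReal_restrict_apply measurableSet_Icc,
        Set.inter_eq_left.2 (Set.Icc_subset_Icc_right (by norm_num))]
      simp
    have v2 : (volume.restrict (Set.Icc (0 : ℝ) 1)).real (Ioc (1 / 2 : ℝ) 1) = 1 / 2 := by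
      rw [measureReal_restrict_apply measurableSet_Ioc,
        Set.inter_eq_left.2 (Set.Ioc_subset_Icc_self.trans (Set.Icc_subset_Icc_left (by norm_num)))]
      simp
      norm_num
    rw [v1, v2]
    simp only [smul_eq_mul]
    ring
  · exact (integrable_const _).indicator measurableSet_Icc
  · exact (integrable_const _).indicator measurableSet_Ioc

/-- `(x, y) ↦ 2 x 1_{[0,1/2]} + 2 y 1_{(1/2,1]}` -/
noncomputable def iot : (ℝ × ℝ) →ₗ[ℝ] L1I :=
  (LinearMap.fst ℝ ℝ ℝ).smulRight f1 + (LinearMap.snd ℝ ℝ ℝ).smulRight f2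

lemma norm_iot (z : ℝ × ℝ) : ‖iot z‖ = |z.1| + |z.2| := norm_comb z.1 z.2

lemma iot_inj : Function.Injective iot := by
  rw [injective_iff_map_eq_zero]
  intro z hz
  have := norm_iot z
  rw [hz, norm_zero] at this
  have h1 := abs_nonneg z.1
  have h2 := abs_nonneg z.2
  refine Prod.ext ?_ ?_
  · exact abs_eq_zero.1 (by linarith)
  · exact abs_eq_zero.1 (by linarith)

/-- **The negated form of Q1.** There is a two-dimensional linear subspace `T` of `L₁([0,1], ℝ)`
which is tractable and for which the magnitude is not continuous on the space of the nonempty compact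
subsets of `T` with the Hausdorff metric.  (`T` is isometric to the plane `ℓ₁²`.) -/
theorem result : ∃ T : Submodule ℝ (Lp ℝ 1 (volume.restrict (Set.Icc (0 : ℝ) 1))),
    Module.finrank ℝ T = 2 ∧ Tractable T ∧ ¬ Continuous (magCmp T) := by
  set E := LinearEquiv.ofInjective iot iot_inj with hE
  have hE' : ∀ z, ((E z : L1I)) = iot z := fun z => rfl
  have hab : ∀ p q : LinearMap.range iot,
      dist p q = |(E.symm p).1 - (E.symm q).1| + |(E.symm p).2 - (E.symm q).2| := by
    intro p q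
    have h1 : (p : L1I) = iot (E.symm p) := by rw [← hE', LinearEquiv.apply_symm_apply]
    have h2 : (q : L1I) = iot (E.symm q) := by rw [← hE', LinearEquiv.apply_symm_apply]
    rw [Subtype.dist_eq, dist_eq_norm, h1, h2, ← map_sub, norm_iot]
    rfl
  have hfin : FiniteDimensional ℝ (LinearMap.range iot) := inferInstance
  have hprop : ProperSpace (LinearMap.range iot) := FiniteDimensional.proper ℝ _
  refine ⟨LinearMap.range iot, ?_, ?_, ?_⟩
  · rw [LinearMap.finrank_range_of_inj iot_inj]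
    simp
  · exact tractable_of (fun p => (E.symm p).1) (fun p => (E.symm p).2) hab
      fun s hs hb => Metric.isCompact_of_isClosed_isBounded hs hb
  · refine not_cont (fun p => (E.symm p).1) (fun p => (E.symm p).2) hab (fun z => E z)
      (fun z => by simp) (fun z => by simp) ?_
    exact (E : (ℝ × ℝ) →ₗ[ℝ] LinearMap.range iot).continuous_of_finiteDimensional

end L1

end Pool.Agent.Results.MP_17ecd9_gt.MagnitudeJump
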